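import Pool.Agent.WAP.StmtsT
import Pool.Agent.Helper32_WAP.Add

set_option autoImplicit false

namespace Pool.Agent.WAP.H91D

open Classical

theorem big_mono {F : Type} [NormedField F] {d : F} {N N' : ℝ} (h : N ≤ N') {P : Pt d}
    (hP : Big N' P) : Big N P := by
  rcases hP with h0 | h1
  · exact Or.inl h0
  · exact Or.inr (lt_of_le_of_lt h h1)

theorem onU_kum {F : Type} [Field F] {d : F} (hd : d ≠ 0) {P Q : Pt d} (hP : cY P ≠ 0)
    (hQ : cY Q ≠ 0) : OnU (kum d P Q) := by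
  have e1 := H32.eqn (P := P)
  have e2 := H32.eqn (P := Q)
  unfold OnU kum cub
  refine ⟨?_, ?_⟩
  · simp only
    have h1 : (cX P / d) ^ 3 - cX P / d = cY P ^ 2 / d ^ 3 := by
      rw [e1]; field_simp
    have h2 : (cX Q / d) ^ 3 - cX Q / d = cY Q ^ 2 / d ^ 3 := by
      rw [e2]; field_simp
    rw [h1, h2]
    field_simp
  · simp only
    exact div_ne_zero (mul_ne_zero hP hQ) (pow_ne_zero _ hd)

theorem finite_T {F : Type} [Field F] (d : F) : {R : Pt d | cY R = 0}.Finite := by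
  have h1 : {R : Pt d | cY R = 0} ⊆ {0} ∪ {R : Pt d | R ≠ 0 ∧ cY R = 0} := by
    intro R hR
    by_cases h : R = 0
    · exact Or.inl h
    · exact Or.inr ⟨h, hR⟩
  refine Set.Finite.subset (Set.Finite.union (Set.finite_singleton _) ?_) h1
  apply Set.Finite.of_finite_image (f := fun R : Pt d => cX R)
  · apply Set.Finite.subset (Set.toFinite ({0, d, -d} : Set F))
    rintro _ ⟨R, ⟨hR0, hR⟩, rfl⟩
    have e := H32.eqn (P := R)
    rw [hR] at e
    have e' : cX R * ((cX R - d) * (cX R + d)) = 0 := by linear_combination -e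
    rcases mul_eq_zero.1 e' with h | h
    · exact Or.inl h
    · rcases mul_eq_zero.1 h with h | h
      · exact Or.inr (Or.inl (sub_eq_zero.1 h))
      · exact Or.inr (Or.inr (eq_neg_of_add_eq_zero_left h))
  · rintro R ⟨hR0, hR⟩ S ⟨hS0, hS⟩ hRS
    exact H32.ext_pt hR0 hS0 hRS (hR.trans hS.symm)

theorem sm_add_right {F : Type} [Field F] [Algebra GaussianInt F] {d : F} (a : GaussianInt)
    (P Q : Pt d) : sm a (P + Q) = sm a P + sm a Q := gsm_add _ a P Q

theorem sm_zero_left {F : Type} [Field F] [Algebra GaussianInt F] {d : F} (P : Pt d) :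
    sm 0 P = 0 := by
  rw [sm_def]; simp

theorem dna (gdf : GdfStmt) (fra : FraStmt) (fre : FreStmt) (kuc : KucStmt) (inj : InjStmt)
    (inf : InfStmt) : DnaStmt := by
  intro F _ _ hF a b c e hdet V hV hex
  obtain ⟨z, hzV, hz⟩ := hex
  have hG : GoodF F := gdf F hF
  have h2 : (2 : F) ≠ 0 := by
    have h := hG.1 2 (by decide)
    rwa [map_ofNat] at h
  obtain ⟨hd, hkum, -, -⟩ := fre F h2 z hz
  set d : F := cub z.1 with hdd
  set P0 : Pt d := frP z with hP0
  set Q0 : Pt d := frQ z with hQ0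
  obtain ⟨N0, hN0⟩ := kuc F hG d hd P0 Q0 (by rw [hkum]; exact hz) V hV (by rw [hkum]; exact hzV)
  -- injectivity constants
  have hI : ∀ u : GaussianInt, ∃ N : ℝ, u ≠ 0 → ∀ p q : Pt d, Big N p → Big N q →
      sm u p = sm u q → p = q := by
    intro u
    by_cases hu : u = 0
    · exact ⟨0, fun h => absurd hu h⟩
    · obtain ⟨N, hN⟩ := inj F hG d hd u hu
      exact ⟨N, fun _ => hN⟩
  obtain ⟨Na, hNa⟩ := hI a
  obtain ⟨Nb, hNb⟩ := hI b
  obtain ⟨Nc, hNc⟩ := hI c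
  obtain ⟨Ne, hNe⟩ := hI e
  obtain ⟨N, h0N, haN, hbN, hcN, heN⟩ : ∃ N : ℝ, N0 ≤ N ∧ Na ≤ N ∧ Nb ≤ N ∧ Nc ≤ N ∧ Ne ≤ N := by
    refine ⟨max N0 (max Na (max Nb (max Nc Ne))), le_max_left _ _, ?_, ?_, ?_, ?_⟩
    · exact le_trans (le_max_left _ _) (le_max_right _ _)
    · exact le_trans (le_trans (le_max_left _ _) (le_max_right _ _)) (le_max_right _ _)
    · exact le_trans (le_trans (le_trans (le_max_left _ _) (le_max_right _ _))
        (le_max_right _ _)) (le_max_right _ _)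
    · exact le_trans (le_trans (le_trans (le_max_right _ _) (le_max_right _ _))
        (le_max_right _ _)) (le_max_right _ _)
  have hfin : ∀ (u : GaussianInt) (Nu : ℝ), Nu ≤ N → (u ≠ 0 → ∀ p q : Pt d, Big Nu p → Big Nu q →
      sm u p = sm u q → p = q) → ∀ R : Pt d,
      {p : Pt d | u ≠ 0 ∧ Big N p ∧ cY (R + sm u p) = 0}.Finite := by
    intro u Nu hNu hu R
    by_cases hu0 : u = 0
    · have : {p : Pt d | u ≠ 0 ∧ Big N p ∧ cY (R + sm u p) = 0} = ∅ := by
        ext p; simp [hu0]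
      rw [this]
      exact Set.finite_empty
    · apply Set.Finite.of_finite_image (f := fun p : Pt d => R + sm u p)
      · apply Set.Finite.subset (finite_T d)
        rintro _ ⟨p, ⟨_, _, hp⟩, rfl⟩
        exact hp
      · rintro p ⟨_, hp, _⟩ q ⟨_, hq, _⟩ hpq
        exact hu hu0 p q (big_mono hNu hp) (big_mono hNu hq) (add_left_cancel hpq)
  have hinf := inf F hG d hd N
  obtain ⟨q, hq, hq'⟩ := (hinf.sdiff ((hfin b Nb hbN hNb (sm a P0 + sm b Q0)).union
    (hfin e Ne heN hNe (sm c P0 + sm e Q0)))).nonempty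
  obtain ⟨p, hp, hp'⟩ := (hinf.sdiff ((hfin a Na haN hNa ((sm a P0 + sm b Q0) + sm b q)).union
    (hfin c Nc hcN hNc ((sm c P0 + sm e Q0) + sm e q)))).nonempty
  have hq1 : b ≠ 0 → cY ((sm a P0 + sm b Q0) + sm b q) ≠ 0 :=
    fun hb h => hq' (Or.inl ⟨hb, hq, h⟩)
  have hq2 : e ≠ 0 → cY ((sm c P0 + sm e Q0) + sm e q) ≠ 0 :=
    fun hb h => hq' (Or.inr ⟨hb, hq, h⟩)
  have hp1 : a ≠ 0 → cY (((sm a P0 + sm b Q0) + sm b q) + sm a p) ≠ 0 :=
    fun hb h => hp' (Or.inl ⟨hb, hp, h⟩)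
  have hp2 : c ≠ 0 → cY (((sm c P0 + sm e Q0) + sm e q) + sm c p) ≠ 0 :=
    fun hb h => hp' (Or.inr ⟨hb, hp, h⟩)
  obtain ⟨hV1, hU1⟩ := hN0 p q (big_mono h0N hp) (big_mono h0N hq)
  refine ⟨kum d (P0 + p) (Q0 + q), hV1, actf a b c e (kum d (P0 + p) (Q0 + q)), hU1, ?_, hdet, rfl⟩
  rw [fra F h2 d (P0 + p) (Q0 + q) a b c e hd hU1]
  have eA : sm a (P0 + p) + sm b (Q0 + q) = ((sm a P0 + sm b Q0) + sm b q) + sm a p := by
    rw [sm_add_right, sm_add_right]; abel
  have eC : sm c (P0 + p) + sm e (Q0 + q) = ((sm c P0 + sm e Q0) + sm e q) + sm c p := by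
    rw [sm_add_right, sm_add_right]; abel
  apply onU_kum hd
  · rw [eA]
    by_cases ha : a = 0
    · have hb : b ≠ 0 := by
        rintro rfl
        rw [ha] at hdet
        simp at hdet
      have h0 : sm a p = 0 := by rw [ha, sm_zero_left]
      rw [h0, add_zero]
      exact hq1 hb
    · exact hp1 ha
  · rw [eC]
    by_cases hc : c = 0
    · have he : e ≠ 0 := by
        rintro rfl
        rw [hc] at hdet
        simp at hdet
      have h0 : sm c p = 0 := by rw [hc, sm_zero_left]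
      rw [h0, add_zero]
      exact hq2 he
    · exact hp2 hc

end Pool.Agent.WAP.H91D
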