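import Pool.Agent.WAP.StmtsT
import Pool.Agent.Helper32_WAP.Add

set_option autoImplicit false

namespace Pool.Agent.WAP.H91

open Classical

section basic
variable {F : Type} [NormedField F] [Algebra GaussianInt F] {d : F}

omit [Algebra GaussianInt F] in
theorem big_mono {N N' : ℝ} (h : N ≤ N') {P : Pt d} (hP : Big N' P) : Big N P := by
  rcases hP with h0 | h1
  · exact Or.inl h0
  · exact Or.inr (lt_of_le_of_lt h h1)

theorem sm_add_left (a b : GaussianInt) (P : Pt d) : sm (a + b) P = sm a P + sm b P :=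
  add_gsm _ a b P

theorem sm_zero' (P : Pt d) : sm 0 P = 0 := by
  rw [sm_def]; simp

theorem sm_one' (P : Pt d) : sm 1 P = P := by
  rw [sm_def]; simp

theorem sm_neg_one' (P : Pt d) : sm (-1) P = -P := by
  rw [sm_def]; simp

theorem sm_I (P : Pt d) : sm ⟨0, 1⟩ P = iPt P := by
  rw [sm_def]; simp

theorem sm_neg_I (P : Pt d) : sm ⟨0, -1⟩ P = -iPt P := by
  rw [sm_def]; simp

omit [Algebra GaussianInt F] in
theorem cz_zero' : cz (0 : Pt d) = 0 := by
  show (0 : F) / 0 = 0
  simp

theorem cz_neg' (P : Pt d) : cz (-P) = -cz P := by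
  rcases P with _ | ⟨X, Y, h⟩
  · have h1 : cz (WeierstrassCurve.Affine.Point.zero : Pt d) = 0 := cz_zero'
    have h2 : (-(WeierstrassCurve.Affine.Point.zero : Pt d)) = WeierstrassCurve.Affine.Point.zero :=
      rfl
    rw [h2, h1, neg_zero]
  · rw [WeierstrassCurve.Affine.Point.neg_some]
    show X / (W d).negY X Y = -(X / Y)
    rw [W_negY, div_neg]

theorem cz_iPt (P : Pt d) : cz (iPt P) = ii F * cz P := by
  have hi : ii F ^ 2 = -1 := ii_sq
  have hi0 : ii F ≠ 0 := by
    intro h
    rw [h] at hi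
    norm_num at hi
  rcases P with _ | ⟨X, Y, h⟩
  · have h1 : cz (WeierstrassCurve.Affine.Point.zero : Pt d) = 0 := cz_zero'
    have h2 : iPt (WeierstrassCurve.Affine.Point.zero : Pt d)
      = WeierstrassCurve.Affine.Point.zero := rfl
    rw [h2, h1, mul_zero]
  · show (-X) / (ii F * Y) = ii F * (X / Y)
    rcases eq_or_ne Y 0 with hY | hY
    · rw [hY]; simp
    · field_simp
      rw [hi]; ring

end basic

/-- The property to be proved for the Gaussian integer `a`. -/
def Pr (F : Type) [NormedField F] [Algebra GaussianInt F] (d : F) (a : GaussianInt) : Prop :=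
  ∀ ε : ℝ, 0 < ε → ∃ N : ℝ, ∀ p : Pt d, Big N p →
    ‖cz (sm a p) - algebraMap GaussianInt F a * cz p‖ ≤ ε * ‖cz p‖

theorem zsm (zad : ZadStmt) (smn : SmnStmt) : ZsmStmt := by
  intro F _ _ hF d hd
  have hexact : ∀ a : GaussianInt,
      (∀ p : Pt d, cz (sm a p) = algebraMap GaussianInt F a * cz p) → Pr F d a := by
    intro a ha ε hε
    refine ⟨0, fun p _ => ?_⟩
    rw [ha p, sub_self, norm_zero]
    positivity
  have h0 : Pr F d 0 := hexact 0 (fun p => by rw [sm_zero', cz_zero', map_zero, zero_mul])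
  have h1 : Pr F d 1 := hexact 1 (fun p => by rw [sm_one', map_one, one_mul])
  have hm1 : Pr F d (-1) := hexact (-1) (fun p => by
    rw [sm_neg_one', cz_neg', map_neg, map_one, neg_one_mul])
  have hI : Pr F d ⟨0, 1⟩ := hexact _ (fun p => by rw [sm_I, cz_iPt]; rfl)
  have hmI : Pr F d ⟨0, -1⟩ := hexact _ (fun p => by
    rw [sm_neg_I, cz_neg', cz_iPt]
    have : (⟨0, -1⟩ : GaussianInt) = -⟨0, 1⟩ := by decide
    rw [this, map_neg, neg_mul]
    rfl)
  have hadd : ∀ a b : GaussianInt, Pr F d a → Pr F d b → Pr F d (a + b) := by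
    intro a b ha hb ε hε
    set A : ℝ := ‖algebraMap GaussianInt F a‖ with hA
    set B : ℝ := ‖algebraMap GaussianInt F b‖ with hB
    have hA0 : 0 ≤ A := norm_nonneg _
    have hB0 : 0 ≤ B := norm_nonneg _
    have he : 0 < ε / (3 * (A + B + 2)) := by positivity
    obtain ⟨N1, hN1⟩ := zad F hF d hd (ε / (3 * (A + B + 2))) he
    obtain ⟨N2, hN2⟩ := smn F hF d hd a N1
    obtain ⟨N3, hN3⟩ := smn F hF d hd b N1
    obtain ⟨N4, hN4⟩ := ha (min (ε / 3) 1) (lt_min (by positivity) one_pos)
    obtain ⟨N5, hN5⟩ := hb (min (ε / 3) 1) (lt_min (by positivity) one_pos)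
    refine ⟨max (max N2 N3) (max N4 N5), fun p hp => ?_⟩
    have e2 := hN2 p (big_mono (le_trans (le_max_left _ _) (le_max_left _ _)) hp)
    have e3 := hN3 p (big_mono (le_trans (le_max_right _ _) (le_max_left _ _)) hp)
    have e4 := hN4 p (big_mono (le_trans (le_max_left _ _) (le_max_right _ _)) hp)
    have e5 := hN5 p (big_mono (le_trans (le_max_right _ _) (le_max_right _ _)) hp)
    have e1 := hN1 _ _ e2 e3
    have hz : 0 ≤ ‖cz p‖ := norm_nonneg _
    have m1 : min (ε / 3) 1 ≤ 1 := min_le_right _ _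
    have m2 : min (ε / 3) 1 ≤ ε / 3 := min_le_left _ _
    have ba : ‖cz (sm a p)‖ ≤ (A + 1) * ‖cz p‖ := by
      have : cz (sm a p) = (cz (sm a p) - algebraMap GaussianInt F a * cz p)
        + algebraMap GaussianInt F a * cz p := by ring
      rw [this]
      refine le_trans (norm_add_le _ _) ?_
      rw [norm_mul]
      have := mul_le_mul_of_nonneg_right m1 hz
      linarith
    have bb : ‖cz (sm b p)‖ ≤ (B + 1) * ‖cz p‖ := by
      have : cz (sm b p) = (cz (sm b p) - algebraMap GaussianInt F b * cz p)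
        + algebraMap GaussianInt F b * cz p := by ring
      rw [this]
      refine le_trans (norm_add_le _ _) ?_
      rw [norm_mul]
      have := mul_le_mul_of_nonneg_right m1 hz
      linarith
    have bm : max ‖cz (sm a p)‖ ‖cz (sm b p)‖ ≤ (A + B + 2) * ‖cz p‖ := by
      apply max_le
      · refine le_trans ba (mul_le_mul_of_nonneg_right (by linarith) hz)
      · refine le_trans bb (mul_le_mul_of_nonneg_right (by linarith) hz)
    have e1' : ‖cz (sm a p + sm b p) - cz (sm a p) - cz (sm b p)‖ ≤ ε / 3 * ‖cz p‖ := by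
      refine le_trans e1 ?_
      refine le_trans (mul_le_mul_of_nonneg_left bm he.le) ?_
      apply le_of_eq
      have : A + B + 2 ≠ 0 := by positivity
      field_simp
    rw [sm_add_left, map_add]
    have hsplit : cz (sm a p + sm b p) - (algebraMap GaussianInt F a + algebraMap GaussianInt F b)
        * cz p = (cz (sm a p + sm b p) - cz (sm a p) - cz (sm b p))
        + (cz (sm a p) - algebraMap GaussianInt F a * cz p)
        + (cz (sm b p) - algebraMap GaussianInt F b * cz p) := by ring
    rw [hsplit]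
    refine le_trans (norm_add_le _ _) ?_
    have h12 := norm_add_le (cz (sm a p + sm b p) - cz (sm a p) - cz (sm b p))
      (cz (sm a p) - algebraMap GaussianInt F a * cz p)
    have e4' := le_trans e4 (mul_le_mul_of_nonneg_right m2 hz)
    have e5' := le_trans e5 (mul_le_mul_of_nonneg_right m2 hz)
    linarith
  have hmul : ∀ (u : GaussianInt), Pr F d u → ∀ n : ℕ, Pr F d (n * u) := by
    intro u hu n
    induction n with
    | zero => simpa using h0
    | succ n ih =>
      have := hadd _ _ ih hu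
      rwa [show ((n : GaussianInt) * u + u) = ((n + 1 : ℕ) : GaussianInt) * u by push_cast; ring]
        at this
  have hall : ∀ a : GaussianInt, Pr F d a := by
    intro a
    have hr : ∀ m : ℤ, Pr F d ⟨m, 0⟩ := by
      intro m
      obtain ⟨n, rfl | rfl⟩ := m.eq_nat_or_neg
      · have := hmul 1 h1 n
        rwa [show ((n : GaussianInt) * 1) = (⟨(n : ℤ), 0⟩ : GaussianInt) by
          ext <;> simp] at this
      · have := hmul (-1) hm1 n
        rwa [show ((n : GaussianInt) * (-1)) = (⟨-(n : ℤ), 0⟩ : GaussianInt) by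
          ext <;> simp] at this
    have hs : ∀ m : ℤ, Pr F d ⟨0, m⟩ := by
      intro m
      obtain ⟨n, rfl | rfl⟩ := m.eq_nat_or_neg
      · have := hmul ⟨0, 1⟩ hI n
        rwa [show ((n : GaussianInt) * ⟨0, 1⟩) = (⟨0, (n : ℤ)⟩ : GaussianInt) by
          ext <;> simp] at this
      · have := hmul ⟨0, -1⟩ hmI n
        rwa [show ((n : GaussianInt) * ⟨0, -1⟩) = (⟨0, -(n : ℤ)⟩ : GaussianInt) by
          ext <;> simp] at this
    have := hadd _ _ (hr a.re) (hs a.im)
    rwa [show ((⟨a.re, 0⟩ : GaussianInt) + ⟨0, a.im⟩) = a by ext <;> simp] at this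
  intro a ε hε
  exact hall a ε hε

end Pool.Agent.WAP.H91
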